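import Pool.Agent.Helper54.DI.StmtsB

namespace Pool.Agent.Helper88.DI

open Finset Filter Topology Pool.Agent.Helper54.ETR Pool.Agent.Helper54.Poly
open Pool.Agent.Helper54.DI

theorem tren_eval (f : ℕ → ℕ) (x : ℕ → ℝ) (t : Term) :
    (t.ren f).eval x = t.eval (fun i => x (f i)) := by
  induction t with
  | zero => rfl
  | one => rfl
  | var i => rfl
  | add s t ihs iht => simp only [Term.ren, Term.eval, ihs, iht]
  | sub s t ihs iht => simp only [Term.ren, Term.eval, ihs, iht]
  | mul s t ihs iht => simp only [Term.ren, Term.eval, ihs, iht]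

theorem fren_holds (f : ℕ → ℕ) (x : ℕ → ℝ) (p : Form) :
    (p.ren f).Holds x ↔ p.Holds (fun i => x (f i)) := by
  induction p with
  | lt s t => simp only [Form.ren, Form.Holds, tren_eval]
  | le s t => simp only [Form.ren, Form.Holds, tren_eval]
  | eq s t => simp only [Form.ren, Form.Holds, tren_eval]
  | ge s t => simp only [Form.ren, Form.Holds, tren_eval]
  | gt s t => simp only [Form.ren, Form.Holds, tren_eval]
  | and p q ihp ihq => simp only [Form.ren, Form.Holds, ihp, ihq]
  | or p q ihp ihq => simp only [Form.ren, Form.Holds, ihp, ihq]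
  | not p ihp => simp only [Form.ren, Form.Holds, ihp]

theorem tren_comp (f g : ℕ → ℕ) (t : Term) : (t.ren f).ren g = t.ren (fun i => g (f i)) := by
  induction t with
  | zero => rfl
  | one => rfl
  | var i => rfl
  | add s t ihs iht => simp only [Term.ren, ihs, iht]
  | sub s t ihs iht => simp only [Term.ren, ihs, iht]
  | mul s t ihs iht => simp only [Term.ren, ihs, iht]

theorem fren_comp (f g : ℕ → ℕ) (p : Form) : (p.ren f).ren g = p.ren (fun i => g (f i)) := by
  induction p with
  | lt s t => simp only [Form.ren, tren_comp]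
  | le s t => simp only [Form.ren, tren_comp]
  | eq s t => simp only [Form.ren, tren_comp]
  | ge s t => simp only [Form.ren, tren_comp]
  | gt s t => simp only [Form.ren, tren_comp]
  | and p q ihp ihq => simp only [Form.ren, ihp, ihq]
  | or p q ihp ihq => simp only [Form.ren, ihp, ihq]
  | not p ihp => simp only [Form.ren, ihp]

theorem cons_ren {Γ : List Form} (g : ℕ → ℕ) {χ : Form} (h : Cons Γ χ) : Cons Γ (χ.ren g) := by
  induction h with
  | one i => exact Cons.one (g i)
  | add i j k => exact Cons.add (g i) (g j) (g k)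
  | le i j => exact Cons.le (g i) (g j)
  | pos f hρ => rw [fren_comp]; exact Cons.pos _ hρ
  | @neg ρ f hρ =>
    have : (Form.not (ρ.ren f)).ren g = Form.not (ρ.ren (fun i => g (f i))) := by
      simp only [Form.ren, fren_comp]
    rw [this]; exact Cons.neg _ hρ
  | and _ _ ihp ihq => exact Cons.and ihp ihq

theorem teval_congr {n : ℕ} {x y : ℕ → ℝ} (h : ∀ i < n, x i = y i) (t : Term) (ht : t.Below n) :
    t.eval x = t.eval y := by
  induction t with
  | zero => rfl
  | one => rfl
  | var i => exact h i ht
  | add s t ihs iht => simp only [Term.eval, ihs ht.1, iht ht.2]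
  | sub s t ihs iht => simp only [Term.eval, ihs ht.1, iht ht.2]
  | mul s t ihs iht => simp only [Term.eval, ihs ht.1, iht ht.2]

theorem holds_congr {n : ℕ} {x y : ℕ → ℝ} (h : ∀ i < n, x i = y i) (p : Form) (hp : FBelow n p) :
    p.Holds x ↔ p.Holds y := by
  induction p with
  | lt s t =>
    have := hp (s, t) (by simp [Form.atoms])
    simp only [Form.Holds, teval_congr h s this.1, teval_congr h t this.2]
  | le s t =>
    have := hp (s, t) (by simp [Form.atoms])
    simp only [Form.Holds, teval_congr h s this.1, teval_congr h t this.2]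
  | eq s t =>
    have := hp (s, t) (by simp [Form.atoms])
    simp only [Form.Holds, teval_congr h s this.1, teval_congr h t this.2]
  | ge s t =>
    have := hp (s, t) (by simp [Form.atoms])
    simp only [Form.Holds, teval_congr h s this.1, teval_congr h t this.2]
  | gt s t =>
    have := hp (s, t) (by simp [Form.atoms])
    simp only [Form.Holds, teval_congr h s this.1, teval_congr h t this.2]
  | and p q ihp ihq =>
    simp only [Form.Holds]
    rw [ihp (fun a ha => hp a (by simp [Form.atoms, ha])),
      ihq (fun a ha => hp a (by simp [Form.atoms, ha]))]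
  | or p q ihp ihq =>
    simp only [Form.Holds]
    rw [ihp (fun a ha => hp a (by simp [Form.atoms, ha])),
      ihq (fun a ha => hp a (by simp [Form.atoms, ha]))]
  | not p ihp =>
    simp only [Form.Holds]
    rw [ihp (fun a ha => hp a (by simpa [Form.atoms] using ha))]

theorem tbelow_ex (t : Term) : ∃ N, t.Below N := by
  induction t with
  | zero => exact ⟨0, trivial⟩
  | one => exact ⟨0, trivial⟩
  | var i => exact ⟨i + 1, Nat.lt_succ_self i⟩
  | add s t ihs iht =>
    obtain ⟨a, ha⟩ := ihs
    obtain ⟨b, hb⟩ := iht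
    exact ⟨max a b, below_mono (le_max_left a b) s ha, below_mono (le_max_right a b) t hb⟩
  | sub s t ihs iht =>
    obtain ⟨a, ha⟩ := ihs
    obtain ⟨b, hb⟩ := iht
    exact ⟨max a b, below_mono (le_max_left a b) s ha, below_mono (le_max_right a b) t hb⟩
  | mul s t ihs iht =>
    obtain ⟨a, ha⟩ := ihs
    obtain ⟨b, hb⟩ := iht
    exact ⟨max a b, below_mono (le_max_left a b) s ha, below_mono (le_max_right a b) t hb⟩

theorem lbelow_ex (l : List (Term × Term)) : ∃ N, ∀ a ∈ l, a.1.Below N ∧ a.2.Below N := by
  induction l with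
  | nil => exact ⟨0, by simp⟩
  | cons c l ih =>
    obtain ⟨N, hN⟩ := ih
    obtain ⟨a, ha⟩ := tbelow_ex c.1
    obtain ⟨b, hb⟩ := tbelow_ex c.2
    refine ⟨max N (max a b), fun d hd => ?_⟩
    rcases List.mem_cons.1 hd with rfl | hd
    · exact ⟨below_mono (le_trans (le_max_left a b) (le_max_right _ _)) _ ha,
        below_mono (le_trans (le_max_right a b) (le_max_right _ _)) _ hb⟩
    · exact ⟨below_mono (le_max_left _ _) _ (hN d hd).1, below_mono (le_max_left _ _) _ (hN d hd).2⟩

theorem st_PPREL : ST_PPREL := by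
  intro Γ ρ k hρ hk
  have key : ∀ v : Fin k → ℝ, (ρ.Holds (ext0 v) ↔
      ∃ w : ℕ → ℝ, (∀ i : Fin k, w i = v i) ∧ (ρ.ren (fun i => i)).Holds w) := by
    intro v
    constructor
    · intro h
      refine ⟨ext0 v, fun i => by simp [ext0], ?_⟩
      rw [fren_holds]; exact h
    · rintro ⟨w, hw, h⟩
      rw [fren_holds] at h
      refine (holds_congr (n := k) (fun i hi => ?_) ρ hk).1 h
      have := hw ⟨i, hi⟩
      simp only at this
      simp [ext0, hi, this]
  have key2 : ∀ v : Fin k → ℝ, (¬ ρ.Holds (ext0 v) ↔
      ∃ w : ℕ → ℝ, (∀ i : Fin k, w i = v i) ∧ (Form.not (ρ.ren (fun i => i))).Holds w) := by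
    intro v
    constructor
    · intro h
      refine ⟨ext0 v, fun i => by simp [ext0], ?_⟩
      simp only [Form.Holds]
      rw [fren_holds]; exact h
    · rintro ⟨w, hw, h⟩ h2
      simp only [Form.Holds] at h
      rw [fren_holds] at h
      refine h ((holds_congr (n := k) (fun i hi => ?_) ρ hk).2 h2)
      have := hw ⟨i, hi⟩
      simp only at this
      simp [ext0, hi, this]
  exact ⟨⟨fun i => (i : ℕ), ρ.ren (fun i => i), Fin.val_injective, Cons.pos _ hρ, key⟩,
    ⟨fun i => (i : ℕ), Form.not (ρ.ren (fun i => i)), Fin.val_injective, Cons.neg _ hρ, key2⟩⟩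

theorem st_PPOUT : ST_PPOUT := by
  classical
  rintro Γ n P ⟨e, χ, he, hχ, hP⟩
  let g : ℕ → ℕ := fun m => if h : ∃ i, e i = m then ((Classical.choose h : Fin n) : ℕ) else n + m
  have g1 : ∀ i, g (e i) = i := by
    intro i
    have h : ∃ j, e j = e i := ⟨i, rfl⟩
    have h2 : Classical.choose h = i := he (Classical.choose_spec h)
    simp only [g]
    rw [dif_pos h, h2]
  have g2 : ∀ m, (¬ ∃ i, e i = m) → g m = n + m := by
    intro m h
    simp only [g]
    rw [dif_neg h]
  have ginj : Function.Injective g := by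
    intro a b hab
    by_cases ha : ∃ i, e i = a
    · obtain ⟨i, rfl⟩ := ha
      by_cases hb : ∃ i, e i = b
      · obtain ⟨j, rfl⟩ := hb
        rw [g1, g1] at hab
        rw [Fin.val_injective hab]
      · rw [g1, g2 b hb] at hab
        have := i.2
        omega
    · by_cases hb : ∃ i, e i = b
      · obtain ⟨j, rfl⟩ := hb
        rw [g1, g2 a ha] at hab
        have := j.2
        omega
      · rw [g2 a ha, g2 b hb] at hab
        omega
  obtain ⟨N, hN⟩ := lbelow_ex (χ.ren g).atoms
  refine ⟨χ.ren g, max N n, cons_ren g hχ,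
    fun a ha => ⟨below_mono (le_max_left _ _) _ (hN a ha).1,
      below_mono (le_max_left _ _) _ (hN a ha).2⟩, le_max_right _ _, fun v => ?_⟩
  rw [hP v]
  constructor
  · rintro ⟨w, hw, h⟩
    have hinv : ∀ m, Function.invFun g (g m) = m := Function.leftInverse_invFun ginj
    refine ⟨fun j => w (Function.invFun g j), fun i => ?_, ?_⟩
    · have := hinv (e i)
      rw [g1] at this
      simp only [this, hw]
    · rw [fren_holds]
      simp only [hinv]
      exact h
  · rintro ⟨w, hw, h⟩
    rw [fren_holds] at h
    exact ⟨fun i => w (g i), fun i => by simp only [g1, hw], h⟩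

end Pool.Agent.Helper88.DI
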